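import Pool.Agent.MP_cb8d3a_ag.H42.Final

set_option autoImplicit false

namespace Pool.Agent.Results.MP_cb8d3a_ag.HodgeVsBlocks

open Pool.Agent.MP_cb8d3a_ag.S2

/-- The preimage in `A^*` of `F^p (KZ / CB)` is contained in this set: the `ψ` whose
Schechtman-Varchenko class lies in `F^p H^5(U, L)` modulo `V^*_l` and the image of `H^5_c(U, L)`. -/
def quotHodge (z : Fin 11 → ℂ) (P : Model) (l p : ℕ) : Set Dual :=
  {ψ | ∃ ψ' ω, Block z l ψ' ∧ Img z P true 0 ω ∧ Img z P false p (svForm z (ψ - ψ') - ω)}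

/-- For `sl2`, `l = 1`, `n = 11`, `λ_i = ν = ω`, `M = 5`, `k = 1`: `V^*_(l + k + 1) / V^*_l` is not
contained in `F^(M - k) (KZ / CB)`. -/
theorem result (z : Fin 11 → ℂ) (hz : Function.Injective z) :
    ∃ P : Model, Compactifies z P ∧
      ∃ ψ : Dual, ψ ≠ 0 ∧ Block z (1 + 1 + 1) ψ ∧ ψ ∉ quotHodge z P 1 (5 - 1) := by
  obtain ⟨P, h1, ψ, h2, h3, h4⟩ := Pool.Agent.MP_cb8d3a_ag.H42.final z hz
  exact ⟨P, h1, ψ, h2, h3, fun ⟨ψ', ω, a, b, c⟩ => h4 ψ' ω a b c⟩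

end Pool.Agent.Results.MP_cb8d3a_ag.HodgeVsBlocks
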